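import Pool.Agent.T9h61.NK.QjG
import Pool.Agent.T9h40.NK.Imp
import Pool.Agent.T9h44.NK.Spec5

/-!
# Project NK, pieces (QJ5), (LL5), (QJ4), (LL4), (LL7) from the general form
-/

set_option autoImplicit false

open Set
open scoped RealInnerProductSpace

namespace Pool.Agent.T9h61.NK

open Pool.Agent.T9h98.DC
open Pool.Agent.T9h44.NK
open Pool.Agent.T9h95.NK

/-- the induction from a given base -/
theorem qjB : S_FACES → S_IOTA → S_TR → S_VF → S_M1 → S_RSC → S_STEPL →
    PTM → ∀ n₀ A J : ℕ, J + 2 ≤ A → 4 ≤ n₀ → QJG n₀ A 0 → QJG n₀ A J := by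
  intro hF hI hT hV hM1 hR hST hmono n₀ A J hJA hn₀ hbase j
  induction j with
  | zero =>
    intro _ n hn P H c hP hH hU hEC hc0 hc hPT
    exact hbase 0 le_rfl n hn P H c hP hH hU hEC hc0 hc hPT
  | succ j ih =>
    intro hj n hn P H c hP hH hU hEC hc0 hc hPT
    obtain ⟨m, rfl⟩ : ∃ m, n = m + 1 := ⟨n - 1, by omega⟩
    have hjA : (j : ℝ) + 3 ≤ A := by
      have : j + 3 ≤ A := by omega
      exact_mod_cast this
    have hpos : (0 : ℝ) < A - 1 - j := by linarith
    have hc' : c * (A - 1 - j) < 1 := by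
      have h1 : c < 1 / ((A : ℝ) - 1 - j) := by
        have : (A : ℝ) - ((j + 1 : ℕ) : ℝ) = A - 1 - j := by push_cast; ring
        rwa [this] at hc
      rwa [lt_div_iff₀ hpos] at h1
    have hc2 : c < 1 / 2 := by nlinarith
    have hPT3 : PT 3 H P := hmono _ P H 3 (j + 1 + 2) hP (by omega) (by omega) hPT
    rcases hST (m + 1) (by omega) P H c hP hH hU hEC hc0 (by linarith) hPT3 with (h2 | h2) | h2
    · exact absurd ((hR _ P c hP hU hEC).1 h2) (by linarith)
    · have h3 := (hR _ P c hP hU hEC).2 h2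
      have h4 : (5 : ℝ) ≤ ((m + 1 : ℕ) : ℝ) := by
        have : 5 ≤ m + 1 := by omega
        exact_mod_cast this
      have h5 : 2 / (((m + 1 : ℕ) : ℝ) + 1) ≤ 1 / 3 := by
        rw [div_le_div_iff₀ (by linarith) (by norm_num)]
        linarith
      linarith
    · have hne' : P.Nonempty := hP.2.mono interior_subset
      obtain ⟨-, v, hv⟩ := (hF _ P hP.1).2.2.2.2.1 hne'
      have hvn : v ≠ 0 := by
        intro h
        have := hU v hv
        rw [h, norm_zero] at this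
        norm_num at this
      obtain ⟨ι, hι, -⟩ := hI _ v hvn
      obtain ⟨l, hl, hs, ho, hn0, huv, -⟩ :=
        hM1 _ P v ι c hP hU hEC (by linarith) (by linarith) hv hι
      have hec := h2 v ι l hv hι hl huv
      have hfix : ∀ h ∈ H, h v = v → h (-l • v) = -l • v := by
        intro h _ he
        rw [map_smul, he]
      obtain ⟨t1, t2, -, -, -⟩ := hT _ P H v (-l • v) ι hP hH hv hs hn0 ho hfix
      have hpoly := (hV _ P v (-l • v) ι hP hv hs hn0 ho).1
      have hlt : c / (1 + c) < 1 / ((A : ℝ) - j) := by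
        rw [div_lt_div_iff₀ (by linarith) (by linarith)]
        nlinarith
      exact ih (by omega) m (by omega) _ _ (c / (1 + c)) hpoly t1 huv hec (by positivity) hlt
        (t2 (j + 2) (by simpa [add_right_comm] using hPT))

theorem base5 (h : S_B5) : QJG 15 4 0 := by
  intro j hj n hn P H c hP hH hU hEC hc0 hc hPT
  obtain rfl : j = 0 := by omega
  refine h n (by omega) P H c hP hH hU hEC hc0 ?_ (by simpa using hPT)
  simpa using hc

theorem base4 (h1 : S_ABS4) (h2 : S_FX) : QJG 302 3 0 := by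
  intro j hj n hn P H c hP hH hU hEC hc0 hc hPT
  obtain rfl : j = 0 := by omega
  have hc3 : c < 1 / 3 := by simpa using hc
  obtain ⟨X, hX1, hX2⟩ := h2 n P H c hP hH hU hEC hc0 (by linarith) (by simpa using hPT)
  have hq : c / (1 + c) < 1 / 4 := by
    rw [div_lt_div_iff₀ (by linarith) (by norm_num)]
    linarith
  have := h1 n (c / (1 + c)) X (by positivity) hq hX2
  omega

theorem qj5 : S_FACES → S_IOTA → S_TR → S_VF → S_M1 → S_RSC → S_STEPL → PTM → S_B5 → S_QJ5 := by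
  intro hF hI hT hV hM1 hR hST hmono hB j hj n hn P H c hP hH hU hEC hc0 hc hPT
  exact qjB hF hI hT hV hM1 hR hST hmono 15 4 2 (by norm_num) (by norm_num) (base5 hB) j hj n hn P H
    c hP hH hU hEC hc0 (by exact_mod_cast hc) hPT

theorem qj4 : S_FACES → S_IOTA → S_TR → S_VF → S_M1 → S_RSC → S_STEPL → PTM → S_ABS4 → S_FX →
    S_QJ4 := by
  intro hF hI hT hV hM1 hR hST hmono hA hX j hj n hn P H c hP hH hU hEC hc0 hc hPT
  exact qjB hF hI hT hV hM1 hR hST hmono 302 3 1 (by norm_num) (by norm_num) (base4 hA hX) j hj n hn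
    P H c hP hH hU hEC hc0 (by exact_mod_cast hc) hPT

theorem ll5 : S_FACES → S_IOTA → S_TR → S_VF → S_M1 → S_ECP → S_L1 → S_L2 → S_STEPL →
    S_SCL → S_EXT → PTM → S_QJ5 → S_LL5 := by
  intro hF hI hT hV hM1 hEC hL1 hL2 hST hSC hE hmono hQ
  refine llG hF hI hT hV hM1 hEC hL1 hL2 hST hSC hE hmono 15 2 (by norm_num) ?_
  intro j hj n hn P H c hP hH hU hEC hc0 hc hPT
  exact hQ j hj n hn P H c hP hH hU hEC hc0 (by exact_mod_cast hc) hPT

theorem ll4' : S_FACES → S_IOTA → S_TR → S_VF → S_M1 → S_ECP → S_L1 → S_L2 → S_STEPL →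
    S_SCL → S_EXT → PTM → S_QJ4 → S_LL4 := by
  intro hF hI hT hV hM1 hEC hL1 hL2 hST hSC hE hmono hQ
  refine llG hF hI hT hV hM1 hEC hL1 hL2 hST hSC hE hmono 302 1 (by norm_num) ?_
  intro j hj n hn P H c hP hH hU hEC hc0 hc hPT
  exact hQ j hj n hn P H c hP hH hU hEC hc0 (by exact_mod_cast hc) hPT

theorem ll7 : S_FACES → S_CONE → S_IOTA → S_TR → S_VF → S_M0 → S_M1 → S_RSC → S_STEPL → S_SUM0 →
    S_EXT → PTM → S_ECP → S_L1 → S_L2 → S_SCL → S_LL7 := by
  intro hF hC hI hT hV hM0 hM1 hR hST hS0 hE hmono hEC hL1 hL2 hSC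
  have hbase : IMPG 4 6 := by
    intro n hn P c hP hc0 hc hU hE hPC S hS hsum
    exact Pool.Agent.T9h40.NK.imp7 hF hC hn hP hc0 (by exact_mod_cast hc) hU hE hPC S hS hsum
  have hq : QJG 4 6 4 := qjG hF hI hT hV hM0 hM1 hR hST hS0 hE hmono 4 6 4 (by norm_num)
    (by norm_num) hbase
  exact llG hF hI hT hV hM1 hEC hL1 hL2 hST hSC hE hmono 4 4 (by norm_num) hq

end Pool.Agent.T9h61.NK
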