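import Pool.Agent.T9h98.NK.SpecS
import Pool.Agent.T9h48.NK.TrCore

/-!
# Project NK, piece (LOCS)
-/

set_option autoImplicit false

open Set
open scoped RealInnerProductSpace

namespace Pool.Agent.T9h61.NK

open Pool.Agent.T9h98.DC
open Pool.Agent.T9h44.NK
open Pool.Agent.T9h98.NK

/-- an isometry of `P` fixing `v` maps neighbours of `v` to neighbours of `v` -/
theorem adj_image {d : ℕ} {P : Set (E d)} (h : E d ≃ₗᵢ[ℝ] E d) (hP : h '' P = P) {v y : E d}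
    (hv : h v = v) (ha : Adj P v y) : Adj P v (h y) := by
  obtain ⟨h1, h2⟩ := ha
  refine ⟨fun h3 => h1 (h.injective (by rw [hv]; exact h3)), ?_⟩
  have h4 := Pool.Agent.T9h48.NK.face_image h hP h2
  have h5 : h '' segment ℝ v y = segment ℝ v (h y) := by
    have h6 := image_segment ℝ (h.toLinearEquiv.toLinearMap.toAffineMap) v y
    have h7 : (h.toLinearEquiv.toLinearMap.toAffineMap) v = v := hv
    rw [h7] at h6
    exact h6
  rwa [h5] at h4

/-- the square norm in the cone over the figure -/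
theorem inner_cone {d : ℕ} {n : E (d + 1)} {ι : E d →ₗᵢ[ℝ] E (d + 1)} (ho : Ort n ι) (x x' : E d) :
    ⟪n + ι x, n + ι x'⟫ = ‖n‖ ^ 2 + ⟪x, x'⟫ := by
  have h1 : ⟪ι x, n⟫ = 0 := by rw [real_inner_comm]; exact ho x
  rw [inner_add_left, inner_add_right, inner_add_right, ho x', h1,
    ι.inner_map_map, real_inner_self_eq_norm_sq]
  ring

theorem locs : S_NB → S_CENS → S_G1 → S_LOCS := by
  intro hNB hCEN hG1 D P H v n ι hD hP hH hv hyp hreg
  have hyp' := hyp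
  obtain ⟨hsup, hn, ho, hfix, -⟩ := hyp'
  obtain ⟨u, s, hs, hdist, hQ⟩ := hreg
  obtain ⟨hsum, htr⟩ := hCEN D P H v n ι hD hP hH hv hyp u s hs hdist hQ
  obtain ⟨hvx, huinj, huadj, hρ⟩ := hG1 D (fig v n ι P) u s (by omega) hs hdist hQ
  obtain ⟨ρ, hρ0, hρ1, hρ2⟩ := hρ hsum
  obtain ⟨nb1, nb2, nb3, nb4⟩ := hNB D P v n ι hP hv hsup hn ho
  have hY : ∀ i, ∃ y, Adj P v y ∧ Pr v n ι y (u i) := fun i => nb2 _ ((hvx _).2 ⟨i, rfl⟩)
  choose Y hYa hYp using hY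
  have hYinj : Function.Injective Y := by
    intro i j hij
    exact huinj ((nb3 (Y i) (Y j) (u i) (u j) (hYa i) (hYa j) (hYp i) (hYp j)).2 hij)
  have hYsurj : ∀ y, Adj P v y → ∃ i, Y i = y := by
    intro y hy
    obtain ⟨x, hx, hxy⟩ := nb1 y hy
    obtain ⟨i, rfl⟩ := (hvx x).1 hx
    exact ⟨i, (nb3 (Y i) y (u i) (u i) (hYa i) hy (hYp i) hxy).1 rfl⟩
  -- transitivity
  have htrans : ∀ i j, ∃ h ∈ H, h v = v ∧ h (Y i) = Y j := by
    intro i j
    obtain ⟨k, ⟨h, hh, hhv, hk⟩, hkx⟩ :=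
      htr (u i) (u j) ((hvx _).2 ⟨i, rfl⟩) ((hvx _).2 ⟨j, rfl⟩)
    refine ⟨h, hh, hhv, ?_⟩
    have ha := adj_image h (hH h hh) hhv (hYa i)
    have hp : Pr v n ι (h (Y i)) (u j) := by
      obtain ⟨t, ht, he⟩ := hYp i
      refine ⟨t, ht, ?_⟩
      calc h (Y i) - v = h (Y i) - h v := by rw [hhv]
        _ = h (Y i - v) := by rw [map_sub]
        _ = t • (n + ι (u j)) := by
          rw [he, map_smul, map_add, hfix h hh hhv, ← hk, hkx]
    exact (nb3 _ _ _ _ ha (hYa j) hp (hYp j)).1 rfl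
  have hlen : ∀ i j, ‖Y i - v‖ = ‖Y j - v‖ := by
    intro i j
    obtain ⟨h, hh, hhv, hij⟩ := htrans i j
    rw [← hij]
    conv_rhs => rw [← hhv]
    rw [← map_sub, h.norm_map]
  obtain ⟨e, he⟩ : ∃ e, e = ‖Y 0 - v‖ := ⟨_, rfl⟩
  have hlen' : ∀ i, ‖Y i - v‖ = e := fun i => by rw [he]; exact hlen i 0
  have he0 : 0 < e := by
    rw [he, norm_pos_iff, sub_ne_zero]
    exact (hYa 0).1.symm
  have hn2 : 0 < ‖n‖ ^ 2 := by positivity
  choose t ht0 ht using hYp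
  have hte : ∀ i, t i ^ 2 * (‖n‖ ^ 2 + ρ) = e ^ 2 := by
    intro i
    rw [← hlen' i, ← real_inner_self_eq_norm_sq (Y i - v), ht i, real_inner_smul_left,
      real_inner_smul_right, inner_cone ho, hρ1]
    ring
  have htt : ∀ i j, t i = t j := by
    intro i j
    have h1 : t i ^ 2 = t j ^ 2 := by
      have h2 : t i ^ 2 * (‖n‖ ^ 2 + ρ) = t j ^ 2 * (‖n‖ ^ 2 + ρ) := by rw [hte, hte]
      exact mul_right_cancel₀ (by positivity) h2
    exact (pow_left_inj₀ (ht0 i).le (ht0 j).le (by norm_num)).1 h1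
  have hD0 : (0 : ℝ) < D := by
    have : 0 < D := by omega
    exact_mod_cast this
  refine ⟨⟨(‖n‖ ^ 2 - ρ / D) / (‖n‖ ^ 2 + ρ), e, ?_, ?_, ?_, ?_, ?_, ?_⟩, ?_⟩
  · exact he0
  · rw [div_lt_one (by positivity)]
    have : 0 < ρ / D := by positivity
    linarith
  · rw [div_lt_div_iff₀ hD0 (by positivity)]
    have h1 : ρ / D * D = ρ := by field_simp
    have h2 : (‖n‖ ^ 2 - ρ / D) * D = ‖n‖ ^ 2 * D - ρ := by rw [sub_mul, h1]
    rw [h2]
    nlinarith [mul_pos hn2 hD0]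
  · intro y hy
    obtain ⟨i, rfl⟩ := hYsurj y hy
    exact hlen' i
  · intro y y' hy hy' hne
    obtain ⟨i, rfl⟩ := hYsurj y hy
    obtain ⟨j, rfl⟩ := hYsurj y' hy'
    have hij : i ≠ j := fun h => hne (by rw [h])
    have hA := (nb4 (Y i) (Y j) (u i) (u j) hy hy' ⟨t i, ht0 i, ht i⟩ ⟨t j, ht0 j, ht j⟩).1
      (huadj i j hij)
    refine ⟨⟨hy, hy', hne, hA.2⟩, ?_⟩
    rw [← hte i, ht i, ht j, real_inner_smul_left, real_inner_smul_right, inner_cone ho,
      hρ2 i j hij, ← htt i j]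
    have h3 : ‖n‖ ^ 2 + ρ ≠ 0 := by positivity
    field_simp
    ring
  · have h1 : {y | Adj P v y} = range Y := by
      ext y
      constructor
      · intro hy
        exact hYsurj y hy
      · rintro ⟨i, rfl⟩
        exact hYa i
    rw [h1, ← image_univ, ncard_image_of_injective _ hYinj, ncard_univ, Nat.card_eq_fintype_card,
      Fintype.card_fin]
  · intro w w' hw hw'
    obtain ⟨i, rfl⟩ := hYsurj w hw
    obtain ⟨j, rfl⟩ := hYsurj w' hw'
    obtain ⟨h, hh, -, hij⟩ := htrans i j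
    exact ⟨h, hh, hij⟩

end Pool.Agent.T9h61.NK
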