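import Pool.Agent.T9h48.NK.TrCore

/-!
# Project NK, slope 1, piece (N1): the number of orbits is additive
-/

set_option autoImplicit false

open Set
open scoped RealInnerProductSpace

namespace Pool.Agent.T9h61.NK

open Pool.Agent.T9h98.DC
open Pool.Agent.T9h44.NK

/-- `Few` for families indexed by any finite type with `k + 1` elements -/
theorem few_of_card {d : ℕ} {k : ℕ} {H : Subgroup (E d ≃ₗᵢ[ℝ] E d)} {P : Set (E d)}
    (h : Few k H P) {α : Type} [Fintype α] (hα : Fintype.card α = k + 1) (Φ : α → Ch P d) :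
    ∃ i j, i ≠ j ∧ ∃ g ∈ H, ∀ l, g '' (Φ i).face l = (Φ j).face l := by
  obtain ⟨i, j, hij, g, hg, hgl⟩ := h (fun i => Φ ((Fintype.equivFinOfCardEq hα).symm i))
  exact ⟨_, _, fun he => hij ((Fintype.equivFinOfCardEq hα).symm.injective he), g, hg, hgl⟩

/-- chains through `v` equivalent under `H` have equivalent figures -/
theorem down {d : ℕ} {P : Set (E (d + 1))} {H : Subgroup (E (d + 1) ≃ₗᵢ[ℝ] E (d + 1))}
    {v n : E (d + 1)} {ι : E d →ₗᵢ[ℝ] E (d + 1)} (hn0 : n ≠ 0) (hO : Ort n ι)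
    (hst : ∀ h ∈ H, h v = v → h n = n) (j : ℕ) (Φ Ψ : Ch P (j + 1)) (Φ' Ψ' : Ch (fig v n ι P) j)
    (h1 : Φ.face 0 = {v}) (h2 : Ψ.face 0 = {v})
    (h3 : ∀ i : Fin j, fig v n ι (Φ.face i.succ) = Φ'.face i)
    (h4 : ∀ i : Fin j, fig v n ι (Ψ.face i.succ) = Ψ'.face i)
    (h5 : ∃ h ∈ H, ∀ i, h '' Φ.face i = Ψ.face i) :
    ∃ k ∈ figH H v ι, ∀ i, k '' Φ'.face i = Ψ'.face i := by
  obtain ⟨h, hh, h5⟩ := h5
  have hhv : h v = v := by
    have := h5 0
    rw [h1, h2, image_singleton] at this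
    exact singleton_injective this
  obtain ⟨k, hk, hk'⟩ := Pool.Agent.T9h48.NK.core1 hn0 hO hst hh hhv
  exact ⟨k, hk, fun i => by rw [← h3, ← h4, ← hk', h5]⟩

/-- **N1** -/
def S_N1g : Prop := ∀ (d : ℕ) (P : Set (E (d + 1))) (H : Subgroup (E (d + 1) ≃ₗᵢ[ℝ] E (d + 1)))
    (v n : E (d + 1)) (ι : E d →ₗᵢ[ℝ] E (d + 1)) (w m : E (d + 1)) (κ : E d →ₗᵢ[ℝ] E (d + 1))
    (a b : ℕ),
  IsPolytope P → Pres H P →
    Vx P v → Sup P v n → n ≠ 0 → Ort n ι → (∀ h ∈ H, h v = v → h n = n) →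
    Vx P w → Sup P w m → m ≠ 0 → Ort m κ → (∀ h ∈ H, h w = w → h m = m) →
    (∀ h ∈ H, h v ≠ w) → Few (a + b + 1) H P → ¬ Few a (figH H w κ) (fig w m κ P) →
    Few b (figH H v ι) (fig v n ι P)

theorem n1g (hSH : S_SH) : S_N1g := by
  intro d P H v n ι w m κ a b hP hH hv hsv hn hιn hstv hw hsw hm hκm hstw hvw hFew hNot
  by_contra hNot2
  unfold Few at hNot hNot2
  push Not at hNot hNot2
  obtain ⟨Ψ, hΨ⟩ := hNot
  obtain ⟨Φ, hΦ⟩ := hNot2
  have liftv := fun i => (hSH d P v n ι hP hv hsv hn hιn d).1 (Φ i)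
  have liftw := fun i => (hSH d P w m κ hP hw hsw hm hκm d).1 (Ψ i)
  choose A hA1 hA2 using liftv
  choose B hB1 hB2 using liftw
  have hcard : Fintype.card (Fin (b + 1) ⊕ Fin (a + 1)) = (a + b + 1) + 1 := by
    rw [Fintype.card_sum, Fintype.card_fin, Fintype.card_fin]
    omega
  obtain ⟨i, j, hij, g, hg, hgl⟩ := few_of_card hFew hcard (Sum.elim A B)
  rcases i with i | i <;> rcases j with j | j
  · have hne : i ≠ j := fun h => hij (by rw [h])
    obtain ⟨k, hk, hkl⟩ := down hn hιn hstv d (A i) (A j) (Φ i) (Φ j) (hA1 i) (hA1 j) (hA2 i)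
      (hA2 j) ⟨g, hg, hgl⟩
    obtain ⟨l, hl⟩ := hΦ i j hne k hk
    exact hl (hkl l)
  · have h0 := hgl 0
    have h1 : g '' (A i).face 0 = (B j).face 0 := h0
    rw [hA1, hB1, image_singleton] at h1
    exact hvw g hg (singleton_injective h1)
  · have h0 := hgl 0
    have h1 : g '' (B i).face 0 = (A j).face 0 := h0
    rw [hA1, hB1, image_singleton] at h1
    have h2 : g w = v := singleton_injective h1
    refine hvw g⁻¹ (H.inv_mem hg) ?_
    change g.symm v = w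
    rw [← h2, g.symm_apply_apply]
  · have hne : i ≠ j := fun h => hij (by rw [h])
    obtain ⟨k, hk, hkl⟩ := down hm hκm hstw d (B i) (B j) (Ψ i) (Ψ j) (hB1 i) (hB1 j) (hB2 i)
      (hB2 j) ⟨g, hg, hgl⟩
    obtain ⟨l, hl⟩ := hΨ i j hne k hk
    exact hl (hkl l)

end Pool.Agent.T9h61.NK
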