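import Pool.Agent.T9h61.NK.QjG
import Pool.Agent.T9h40.NK.Imp
import Pool.Agent.T9h46.NK.Ind6

/-!
# Project NK, pieces (LL3) and (LL4)
-/

set_option autoImplicit false

open Set
open scoped RealInnerProductSpace

namespace Pool.Agent.T9h61.NK

open Pool.Agent.T9h98.DC
open Pool.Agent.T9h44.NK
open Pool.Agent.T9h95.NK

theorem impg7 (hF : S_FACES) (hC : S_CONE) : IMPG 4 6 := by
  intro n hn P c hP hc0 hc hU hE hPC S hS hsum
  exact Pool.Agent.T9h40.NK.imp7 hF hC hn hP hc0 (by exact_mod_cast hc) hU hE hPC S hS hsum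

theorem impg6 (hF : S_FACES) (hC : S_CONE) : IMPG 16 5 := by
  intro n hn P c hP hc0 hc hU hE hPC S hS hsum
  exact Pool.Agent.T9h40.NK.imp6 hF hC hn hP hc0 (by exact_mod_cast hc) hU hE hPC S hS hsum

theorem ll3 : S_FACES → S_CONE → S_IOTA → S_TR → S_VF → S_M0 → S_M1 → S_RSC → S_STEPL → S_SUM0 →
    S_EXT → PTM → S_ECP → S_L1 → S_L2 → S_SCL → Pool.Agent.T9h46.NK.S_LL3 := by
  intro hF hC hI hT hV hM0 hM1 hR hST hS0 hE hmono hEC hL1 hL2 hSC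
  have hq : QJG 4 6 4 := qjG hF hI hT hV hM0 hM1 hR hST hS0 hE hmono 4 6 4 (by norm_num)
    (by norm_num) (impg7 hF hC)
  exact llG hF hI hT hV hM1 hEC hL1 hL2 hST hSC hE hmono 4 4 (by norm_num) hq

theorem ll4 : S_FACES → S_CONE → S_IOTA → S_TR → S_VF → S_M0 → S_M1 → S_RSC → S_STEPL → S_SUM0 →
    S_EXT → PTM → S_ECP → S_L1 → S_L2 → S_SCL → Pool.Agent.T9h46.NK.S_LL4 := by
  intro hF hC hI hT hV hM0 hM1 hR hST hS0 hE hmono hEC hL1 hL2 hSC
  have hq : QJG 16 5 3 := qjG hF hI hT hV hM0 hM1 hR hST hS0 hE hmono 16 5 3 (by norm_num)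
    (by norm_num) (impg6 hF hC)
  exact llG hF hI hT hV hM1 hEC hL1 hL2 hST hSC hE hmono 16 3 (by norm_num) hq

end Pool.Agent.T9h61.NK
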