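import Pool.Agent.T9h61.NK.QjB

/-!
# Project NK: `PT 4` suffices in dimension `≥ 11`, from the base `c < 1/3` (helper40's IMPT)
-/

set_option autoImplicit false

open Set
open scoped RealInnerProductSpace

namespace Pool.Agent.T9h61.NK

open Pool.Agent.T9h98.DC
open Pool.Agent.T9h44.NK
open Pool.Agent.T9h95.NK

/-- base: `PT 2`, equal edges, `0 < c < 1 / A` is impossible in `E (n + 1)`, `n ≥ n₀` -/
def BASE (n₀ A : ℕ) : Prop := ∀ (n : ℕ), n₀ ≤ n → ∀ (P : Set (E (n + 1)))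
    (H : Subgroup (E (n + 1) ≃ₗᵢ[ℝ] E (n + 1))) (c : ℝ),
  IsPolytope P → Pres H P → UV P → EC c P → 0 < c → c < 1 / (A : ℝ) → PT 2 H P → False

theorem base_qj {n₀ A : ℕ} (h : BASE n₀ A) : QJG n₀ A 0 := by
  intro j hj n hn P H c hP hH hU hEC hc0 hc hPT
  obtain rfl : j = 0 := by omega
  refine h n (by omega) P H c hP hH hU hEC hc0 ?_ (by simpa using hPT)
  simpa using hc

/-- any base gives: `PT (J + 3)` suffices for `n ≥ n₀ + J + 1`, `A = J + 2` -/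
theorem llB : S_FACES → S_IOTA → S_TR → S_VF → S_M1 → S_RSC → S_STEPL → PTM → S_ECP → S_L1 →
    S_L2 → S_SCL → S_EXT → ∀ n₀ J : ℕ, 4 ≤ n₀ → BASE n₀ (J + 2) → LLG n₀ J := by
  intro hF hI hT hV hM1 hR hST hmono hEC hL1 hL2 hSC hE n₀ J hn₀ hB
  exact llG hF hI hT hV hM1 hEC hL1 hL2 hST hSC hE hmono n₀ J (by omega)
    (qjB hF hI hT hV hM1 hR hST hmono n₀ (J + 2) J le_rfl hn₀ (base_qj hB))

/-- `PT 4`, `n ≥ 10` -/
theorem llT : S_FACES → S_IOTA → S_TR → S_VF → S_M1 → S_RSC → S_STEPL → PTM → S_ECP → S_L1 →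
    S_L2 → S_SCL → S_EXT → BASE 8 3 → ∀ (n : ℕ), 10 ≤ n → ∀ (P : Set (E (n + 1)))
      (H : Subgroup (E (n + 1) ≃ₗᵢ[ℝ] E (n + 1))),
    IsPolytope P → Pres H P → PT 4 H P → Reg P := by
  intro hF hI hT hV hM1 hR hST hmono hEC hL1 hL2 hSC hE hB
  exact llB hF hI hT hV hM1 hR hST hmono hEC hL1 hL2 hSC hE 8 1 (by norm_num) hB

end Pool.Agent.T9h61.NK
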