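import Pool.Agent.T9h95.NK.Ll2
import Pool.Agent.T9h47.NK.Metric

/-!
# Project NK, piece (QJ2)
-/

set_option autoImplicit false

open Set
open scoped RealInnerProductSpace

namespace Pool.Agent.T9h61.NK

open Pool.Agent.T9h98.DC
open Pool.Agent.T9h44.NK
open Pool.Agent.T9h95.NK

theorem qj2 : S_FACES → S_CONE → S_IOTA → S_TR → S_VF → S_M0 → S_M1 → S_RSC → S_STEPL → S_SUM0 →
    S_EXT → PTM → S_QJ2 := by
  intro hF hC hI hT hV hM0 hM1 hR hST hS0 hE hmono j
  induction j with
  | zero =>
    intro _ n hn P H c hP hH hU hEC hc0 hc hPT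
    have hc8 : c < 1 / 8 := by simpa using hc
    have hPC : PC c P := hM0 n P c hP hU hEC (by linarith)
    have hfin := (hF _ P hP.1).2.2.1
    have hPT1 : PT 1 H P := hmono _ P H 1 2 hP (by norm_num) (by omega) (by simpa using hPT)
    have hmem : ∀ v, v ∈ hfin.toFinset ↔ Vx P v := by
      intro v
      rw [Set.Finite.mem_toFinset, mem_ofPred_eq]
    refine Pool.Agent.T9h47.NK.imp hF hC (by omega : 1 ≤ n) hP hc0 hc8 hU hEC hPC hfin.toFinset
      hmem ?_
    exact hS0 _ P H _ hP hH (fun v w hv hw => vtrans hE hP hPT1 hv hw) hmem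
  | succ j ih =>
    intro hj n hn P H c hP hH hU hEC hc0 hc hPT
    obtain ⟨m, rfl⟩ : ∃ m, n = m + 1 := ⟨n - 1, by omega⟩
    have hj5 : (j : ℝ) ≤ 5 := by
      have : j ≤ 5 := by omega
      exact_mod_cast this
    have hj7 : (0 : ℝ) < 7 - j := by linarith
    have hc' : c * (7 - j) < 1 := by
      have h1 : c < 1 / (7 - (j : ℝ)) := by
        have : (8 : ℝ) - ((j + 1 : ℕ) : ℝ) = 7 - j := by push_cast; ring
        rwa [this] at hc
      rwa [lt_div_iff₀ hj7] at h1
    have hc2 : c < 1 / 2 := by nlinarith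
    have hPT3 : PT 3 H P := hmono _ P H 3 (j + 1 + 2) hP (by omega) (by omega) hPT
    rcases hST (m + 1) (by omega) P H c hP hH hU hEC hc0 (by linarith) hPT3 with (h2 | h2) | h2
    · exact absurd ((hR _ P c hP hU hEC).1 h2) (by linarith)
    · have h3 := (hR _ P c hP hU hEC).2 h2
      have h4 : (5 : ℝ) ≤ ((m + 1 : ℕ) : ℝ) := by
        have : 5 ≤ m + 1 := by omega
        exact_mod_cast this
      have h5 : 2 / (((m + 1 : ℕ) : ℝ) + 1) ≤ 1 / 3 := by
        rw [div_le_div_iff₀ (by linarith) (by norm_num)]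
        linarith
      linarith
    · have hne' : P.Nonempty := hP.2.mono interior_subset
      obtain ⟨-, v, hv⟩ := (hF _ P hP.1).2.2.2.2.1 hne'
      have hvn : v ≠ 0 := by
        intro h
        have := hU v hv
        rw [h, norm_zero] at this
        norm_num at this
      obtain ⟨ι, hι, -⟩ := hI _ v hvn
      obtain ⟨l, hl, hs, ho, hn0, huv, -⟩ :=
        hM1 _ P v ι c hP hU hEC (by linarith) (by linarith) hv hι
      have hec := h2 v ι l hv hι hl huv
      have hfix : ∀ h ∈ H, h v = v → h (-l • v) = -l • v := by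
        intro h _ he
        rw [map_smul, he]
      obtain ⟨t1, t2, -, -, -⟩ := hT _ P H v (-l • v) ι hP hH hv hs hn0 ho hfix
      have hpoly := (hV _ P v (-l • v) ι hP hv hs hn0 ho).1
      have hlt : c / (1 + c) < 1 / (8 - (j : ℝ)) := by
        rw [div_lt_div_iff₀ (by linarith) (by linarith)]
        nlinarith
      exact ih (by omega) m (by omega) _ _ (c / (1 + c)) hpoly t1 huv hec (by positivity) hlt
        (t2 (j + 2) (by simpa [add_right_comm] using hPT))

end Pool.Agent.T9h61.NK
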