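import Pool.Agent.T9h95.NK.Ll2
import Pool.Agent.T9h47.NK.Metric

/-!
# Project NK, piece (QJ) with a general base
-/

set_option autoImplicit false

open Set
open scoped RealInnerProductSpace

namespace Pool.Agent.T9h61.NK

open Pool.Agent.T9h98.DC
open Pool.Agent.T9h44.NK
open Pool.Agent.T9h95.NK

/-- the metric lemma `imp` for `c < 1 / A` in dimension `≥ n₀ + 1` -/
def IMPG (n₀ A : ℕ) : Prop := ∀ (n : ℕ), n₀ ≤ n → ∀ (P : Set (E (n + 1))) (c : ℝ), IsPolytope P →
  0 < c → c < 1 / (A : ℝ) → UV P → EC c P → PC c P → ∀ S : Finset (E (n + 1)),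
    (∀ v, v ∈ S ↔ Vx P v) → ∑ v ∈ S, v = 0 → False

/-- `QJ` with the base `c < 1 / A` -/
def QJG (n₀ A J : ℕ) : Prop := ∀ (j : ℕ), j ≤ J → ∀ (n : ℕ), n₀ + j ≤ n → ∀ (P : Set (E (n + 1)))
    (H : Subgroup (E (n + 1) ≃ₗᵢ[ℝ] E (n + 1))) (c : ℝ),
  IsPolytope P → Pres H P → UV P → EC c P → 0 < c → c < 1 / ((A : ℝ) - j) → PT (j + 2) H P → False

theorem qjG : S_FACES → S_IOTA → S_TR → S_VF → S_M0 → S_M1 → S_RSC → S_STEPL → S_SUM0 →
    S_EXT → PTM → ∀ n₀ A J : ℕ, J + 2 ≤ A → 4 ≤ n₀ → IMPG n₀ A → QJG n₀ A J := by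
  intro hF hI hT hV hM0 hM1 hR hST hS0 hE hmono n₀ A J hJA hn₀ himp j
  have hA2 : (2 : ℝ) ≤ A := by
    have : 2 ≤ A := by omega
    exact_mod_cast this
  induction j with
  | zero =>
    intro _ n hn P H c hP hH hU hEC hc0 hc hPT
    have hcA : c < 1 / (A : ℝ) := by simpa using hc
    have hc1 : c < 1 := by
      have h1 : 1 / (A : ℝ) ≤ 1 / 2 := one_div_le_one_div_of_le (by norm_num) hA2
      linarith
    have hPC : PC c P := hM0 n P c hP hU hEC hc1
    have hfin := (hF _ P hP.1).2.2.1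
    have hPT1 : PT 1 H P := hmono _ P H 1 2 hP (by norm_num) (by omega) (by simpa using hPT)
    have hmem : ∀ v, v ∈ hfin.toFinset ↔ Vx P v := by
      intro v
      rw [Set.Finite.mem_toFinset, mem_ofPred_eq]
    refine himp n (by omega) P c hP hc0 hcA hU hEC hPC hfin.toFinset hmem ?_
    exact hS0 _ P H _ hP hH (fun v w hv hw => vtrans hE hP hPT1 hv hw) hmem
  | succ j ih =>
    intro hj n hn P H c hP hH hU hEC hc0 hc hPT
    obtain ⟨m, rfl⟩ : ∃ m, n = m + 1 := ⟨n - 1, by omega⟩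
    have hjA : (j : ℝ) + 3 ≤ A := by
      have : j + 3 ≤ A := by omega
      exact_mod_cast this
    have hpos : (0 : ℝ) < A - 1 - j := by linarith
    have hc' : c * (A - 1 - j) < 1 := by
      have h1 : c < 1 / ((A : ℝ) - 1 - j) := by
        have : (A : ℝ) - ((j + 1 : ℕ) : ℝ) = A - 1 - j := by push_cast; ring
        rwa [this] at hc
      rwa [lt_div_iff₀ hpos] at h1
    have hc2 : c < 1 / 2 := by nlinarith
    have hPT3 : PT 3 H P := hmono _ P H 3 (j + 1 + 2) hP (by omega) (by omega) hPT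
    rcases hST (m + 1) (by omega) P H c hP hH hU hEC hc0 (by linarith) hPT3 with (h2 | h2) | h2
    · exact absurd ((hR _ P c hP hU hEC).1 h2) (by linarith)
    · have h3 := (hR _ P c hP hU hEC).2 h2
      have h4 : (5 : ℝ) ≤ ((m + 1 : ℕ) : ℝ) := by
        have : 5 ≤ m + 1 := by omega
        exact_mod_cast this
      have h5 : 2 / (((m + 1 : ℕ) : ℝ) + 1) ≤ 1 / 3 := by
        rw [div_le_div_iff₀ (by linarith) (by norm_num)]
        linarith
      linarith
    · have hne' : P.Nonempty := hP.2.mono interior_subset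
      obtain ⟨-, v, hv⟩ := (hF _ P hP.1).2.2.2.2.1 hne'
      have hvn : v ≠ 0 := by
        intro h
        have := hU v hv
        rw [h, norm_zero] at this
        norm_num at this
      obtain ⟨ι, hι, -⟩ := hI _ v hvn
      obtain ⟨l, hl, hs, ho, hn0, huv, -⟩ :=
        hM1 _ P v ι c hP hU hEC (by linarith) (by linarith) hv hι
      have hec := h2 v ι l hv hι hl huv
      have hfix : ∀ h ∈ H, h v = v → h (-l • v) = -l • v := by
        intro h _ he
        rw [map_smul, he]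
      obtain ⟨t1, t2, -, -, -⟩ := hT _ P H v (-l • v) ι hP hH hv hs hn0 ho hfix
      have hpoly := (hV _ P v (-l • v) ι hP hv hs hn0 ho).1
      have hlt : c / (1 + c) < 1 / ((A : ℝ) - j) := by
        rw [div_lt_div_iff₀ (by linarith) (by linarith)]
        nlinarith
      exact ih (by omega) m (by omega) _ _ (c / (1 + c)) hpoly t1 huv hec (by positivity) hlt
        (t2 (j + 2) (by simpa [add_right_comm] using hPT))

/-- `LL` with a general base -/
def LLG (n₀ J : ℕ) : Prop := ∀ (n : ℕ), n₀ + J + 1 ≤ n → ∀ (P : Set (E (n + 1)))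
    (H : Subgroup (E (n + 1) ≃ₗᵢ[ℝ] E (n + 1))),
  IsPolytope P → Pres H P → PT (J + 3) H P → Reg P

theorem llG : S_FACES → S_IOTA → S_TR → S_VF → S_M1 → S_ECP → S_L1 → S_L2 → S_STEPL →
    S_SCL → S_EXT → PTM → ∀ n₀ J : ℕ, 3 ≤ n₀ → QJG n₀ (J + 2) J → LLG n₀ J := by
  intro hF hI hT hV hM1 hEC hL1 hL2 hST hSC hE hmono n₀ J hn₀ hQJ n hn P H hP hH hPT
  obtain ⟨m, rfl⟩ : ∃ m, n = m + 1 := ⟨n - 1, by omega⟩
  have hne : P.Nonempty := hP.2.mono interior_subset
  obtain ⟨hPP, v₀, hv₀⟩ := (hF _ P hP.1).2.2.2.2.1 hne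
  have hPT1 : PT 1 H P := hmono _ P H 1 (J + 3) hP (by omega) (by omega) hPT
  have hnorm : ∀ v, Vx P v → ‖v‖ = ‖v₀‖ := by
    intro v hv
    obtain ⟨h, -, he⟩ := vtrans hE hP hPT1 hv₀ hv
    rw [← he, h.norm_map]
  obtain ⟨ρ, hρ⟩ : ∃ ρ, ρ = ‖v₀‖ := ⟨_, rfl⟩
  rw [← hρ] at hnorm
  have hρ0 : 0 < ρ := by
    rcases (norm_nonneg v₀).eq_or_lt with h | h
    · exfalso
      have h1 := ((hF _ P hP.1).1 P hPP).2
      have h2 : {v | Vx P v ∧ v ∈ P} ⊆ {(0 : E (m + 1 + 1))} := by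
        rintro v ⟨hv, -⟩
        have := hnorm v hv
        rw [hρ, ← h] at this
        exact norm_eq_zero.1 this
      have h3 : P ⊆ {(0 : E (m + 1 + 1))} := by
        rw [h1]
        exact (convexHull_min h2 (convex_singleton _))
      obtain ⟨x, hx⟩ := hP.2
      have h4 := interior_mono h3 hx
      rw [interior_singleton] at h4
      exact h4
    · rw [hρ]
      exact h
  obtain ⟨P', hP'⟩ : ∃ P' : Set (E (m + 1 + 1)), P' = (fun x => ρ⁻¹ • x) '' P := ⟨_, rfl⟩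
  obtain ⟨q1, q2, q3, q4, q5⟩ := hSC _ P H ρ⁻¹ (inv_pos.2 hρ0) hP hH P' hP'
  refine q5 ?_
  have hUV : UV P' := by
    intro v hv
    have h1 := hnorm _ (q3 v hv)
    rw [inv_inv, norm_smul, Real.norm_of_nonneg hρ0.le] at h1
    have h2 : ρ * (‖v‖ - 1) = 0 := by rw [mul_sub, h1]; ring
    rcases mul_eq_zero.1 h2 with h3 | h3
    · exact absurd h3 hρ0.ne'
    · linarith
  have hPT9 := q4 (J + 3) hPT
  have hPT2 : PT 2 H P' := hmono _ P' H 2 (J + 3) q1 (by omega) (by omega) hPT9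
  have hPT3 : PT 3 H P' := hmono _ P' H 3 (J + 3) q1 (by omega) (by omega) hPT9
  obtain ⟨c, hc1, hc⟩ := hEC _ P' H q1 q2 hUV hPT2
  rcases lt_trichotomy c 0 with h0 | h0 | h0
  · exact Or.inl (hL1 _ P' c q1 hUV hc h0).1
  · rw [h0] at hc
    exact Or.inr (Or.inl (hL2 _ P' H q1 q2 hUV hc hPT2))
  · rcases hST (m + 1) (by omega) P' H c q1 q2 hUV hc h0 hc1 hPT3 with (h2 | h2) | h2
    · exact Or.inl h2
    · exact Or.inr (Or.inr h2)
    · exfalso
      have hne' : P'.Nonempty := q1.2.mono interior_subset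
      obtain ⟨-, v, hv⟩ := (hF _ P' q1.1).2.2.2.2.1 hne'
      have hvn : v ≠ 0 := by
        intro h
        have := hUV v hv
        rw [h, norm_zero] at this
        norm_num at this
      obtain ⟨ι, hι, -⟩ := hI _ v hvn
      obtain ⟨l, hl, hs, ho, hn0, huv, -⟩ := hM1 _ P' v ι c q1 hUV hc (by linarith) hc1 hv hι
      have hec := h2 v ι l hv hι hl huv
      have hfix : ∀ h ∈ H, h v = v → h (-l • v) = -l • v := by
        intro h _ he
        rw [map_smul, he]
      obtain ⟨t1, t2, -, -, -⟩ := hT _ P' H v (-l • v) ι q1 q2 hv hs hn0 ho hfix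
      have hpoly := (hV _ P' v (-l • v) ι q1 hv hs hn0 ho).1
      have hlt : c / (1 + c) < 1 / (((J + 2 : ℕ) : ℝ) - J) := by
        have h2' : ((J + 2 : ℕ) : ℝ) - J = 2 := by push_cast; ring
        rw [h2', div_lt_div_iff₀ (by linarith) (by norm_num)]
        linarith
      exact hQJ J le_rfl m (by omega) _ _ (c / (1 + c)) hpoly t1 huv hec (by positivity) hlt
        (t2 (J + 2) hPT9)

end Pool.Agent.T9h61.NK

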